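import Pool.Agent.H82.EUC.Stmts4

set_option autoImplicit false

namespace Pool.EUC

theorem jet_thm (h1 : MET_S) : JET_S := by
  intro A _ dM dW hM hW σ τ hσ hτ
  obtain ⟨ρ, hρ, h2, h3⟩ := h1 A dW dM hW hM σ.symm τ.symm
    (fun m w h => hσ w m ⟨h.2, h.1⟩) (fun m w h => hτ w m ⟨h.2, h.1⟩)
  exact ⟨ρ.symm, fun m w h => hρ w m ⟨h.2, h.1⟩, h3, h2⟩

end Pool.EUC
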